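import Mathlib

namespace Pool.Agent.Results.MP_50e72c_co.Disproof

variable {V : Type} [Fintype V] [DecidableEq V]

/-- The unburned vertex `v` catches fire from the burned set `B`. -/
def Catches (E : Finset (Finset V)) (B : Finset V) (v : V) : Prop :=
  v ∉ B ∧ ∃ e ∈ E, 2 ≤ e.card ∧ v ∈ e ∧ e.erase v ⊆ B

instance (E : Finset (Finset V)) (B : Finset V) : DecidablePred (Catches E B) :=
  fun v => by unfold Catches; infer_instance

/-- One application of the propagation rule. -/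
def spread (E : Finset (Finset V)) (B : Finset V) : Finset V :=
  B ∪ Finset.univ.filter (Catches E B)

/-- `F_r`, the burned set at the end of round `r`; the source of round `r + 1` is `u r`. -/
def burned (E : Finset (Finset V)) (u : ℕ → V) : ℕ → Finset V
  | 0 => ∅
  | r + 1 => insert (u r) (spread E (burned E u r))

/-- `(u 0, …, u (k - 1))` is a burning sequence. -/
def IsBurningSeq (E : Finset (Finset V)) (k : ℕ) (u : ℕ → V) : Prop :=
  (∀ r < k, u r ∉ burned E u r) ∧ burned E u k = Finset.univ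

def IsOptimal (E : Finset (Finset V)) (k : ℕ) (u : ℕ → V) : Prop :=
  IsBurningSeq E k u ∧ ∀ k' u', IsBurningSeq E k' u' → k ≤ k'

def IsLazy (E : Finset (Finset V)) (S : Finset V) : Prop :=
  ∃ n, (spread E)^[n] S = Finset.univ

def IsMinLazy (E : Finset (Finset V)) (S : Finset V) : Prop :=
  IsLazy E S ∧ ∀ T, IsLazy E T → S.card ≤ T.card

def H : Finset (Finset (Fin 6)) :=
  {{0, 2, 5}, {0, 4, 5}, {2, 4}, {0, 3, 5}, {0, 1, 3}, {0, 2, 4}}

lemma lazy2 : IsLazy H {2} := ⟨5, by decide +kernel⟩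

lemma fix0 : spread H ∅ = ∅ := by decide +kernel

lemma fix1 : ∀ x : Fin 6, x ≠ 2 → x ≠ 4 → spread H {x} = {x} := by decide +kernel

lemma k1 : ∀ a : Fin 6, insert a (spread H ∅) ≠ Finset.univ := by decide +kernel

lemma k2 : ∀ a b : Fin 6, insert b (spread H (insert a (spread H ∅))) ≠ Finset.univ := by
  decide +kernel

lemma k3 : ∀ a b c : Fin 6,
    insert c (spread H (insert b (spread H (insert a (spread H ∅))))) = Finset.univ →
    (a ≠ 2 ∧ a ≠ 4) ∧ (b ≠ 2 ∧ b ≠ 4) ∧ (c ≠ 2 ∧ c ≠ 4) := by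
  decide +kernel

def u0 (r : ℕ) : Fin 6 := if r = 0 then 5 else if r = 1 then 0 else 1

lemma seq0 : IsBurningSeq H 3 u0 := by
  unfold IsBurningSeq
  decide +kernel

lemma three_le (k : ℕ) (u : ℕ → Fin 6) (h : IsBurningSeq H k u) : 3 ≤ k := by
  by_contra hk
  have h2 := h.2
  have : k = 0 ∨ k = 1 ∨ k = 2 := by omega
  rcases this with rfl | rfl | rfl
  · exact absurd h2 (by simp only [burned]; decide)
  · exact k1 _ h2
  · exact k2 _ _ h2

theorem result : ∃ E : Finset (Finset (Fin 6)), (∃ k u, IsOptimal E k u) ∧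
    ∀ k u, IsOptimal E k u →
      ¬ ∃ S : Finset (Fin 6), (∀ x ∈ S, ∃ r < k, u r = x) ∧ IsMinLazy E S := by
  refine ⟨H, ⟨3, u0, seq0, three_le⟩, ?_⟩
  rintro k u ⟨h1, h2⟩ ⟨S, hS, ⟨n, hn⟩, hmin⟩
  have hk : k = 3 := le_antisymm (h2 3 u0 seq0) (three_le k u h1)
  subst hk
  have h3 := k3 _ _ _ h1.2
  have hc : S.card ≤ 1 := by simpa using hmin _ lazy2
  have hfix : spread H S = S ∧ S ≠ Finset.univ := by
    rcases Nat.le_one_iff_eq_zero_or_eq_one.1 hc with h0 | h0
    · rw [Finset.card_eq_zero] at h0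
      subst h0
      exact ⟨fix0, by decide⟩
    · obtain ⟨x, rfl⟩ := Finset.card_eq_one.1 h0
      obtain ⟨r, hr, rfl⟩ := hS x (by simp)
      refine ⟨?_, fun h => by simpa using congrArg Finset.card h⟩
      have : r = 0 ∨ r = 1 ∨ r = 2 := by omega
      rcases this with rfl | rfl | rfl
      · exact fix1 _ h3.1.1 h3.1.2
      · exact fix1 _ h3.2.1.1 h3.2.1.2
      · exact fix1 _ h3.2.2.1 h3.2.2.2
  rw [Function.iterate_fixed hfix.1] at hn
  exact hfix.2 hn

end Pool.Agent.Results.MP_50e72c_co.Disproof
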